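import Pool.Agent.Helper97.SZ.Goals

/-!
# Project SZ: a germ tangent to the identity, blown up and cut off
-/

set_option autoImplicit false

open Set Filter Topology Metric
open scoped ContDiff

namespace Pool.Agent.Helper88.SZ

open Pool.Agent.Helper91.SY Pool.Agent.Helper97.SZ

theorem blow (hGI : StmtGI) (hIV : StmtIV) : StmtBLOW := by
  intro E _ _ _ ψ W R₀ R₁ δ hW h0 hψ hψ0 hD hR₀ hR hδ
  have hR₁ : 0 < R₁ := hR₀.trans hR
  let ρ : ContDiffBump (0 : E) := ⟨R₀, R₁, hR₀, hR⟩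
  have hρs : ContDiff ℝ ∞ (fun x => ρ x) := ρ.contDiff
  obtain ⟨M, hM⟩ : ∃ M : ℝ, ∀ x, ‖fderiv ℝ (fun x => ρ x) x‖ ≤ M := by
    apply Continuous.bounded_above_of_compact_support
    · exact hρs.continuous_fderiv (by simp)
    · exact HasCompactSupport.fderiv ℝ ρ.hasCompactSupport
  have hM0 : 0 ≤ M := (norm_nonneg _).trans (hM 0)
  have hmin : 0 < min δ (1 / 2) := lt_min hδ (by norm_num)
  have hden : 0 < M * R₁ + 1 := by positivity
  obtain ⟨κ, hκ0, hκ⟩ : ∃ κ : ℝ, 0 < κ ∧ (M * R₁ + 1) * κ = min δ (1 / 2) := by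
    refine ⟨min δ (1 / 2) / (M * R₁ + 1), by positivity, ?_⟩
    field_simp
  obtain ⟨r, hr0, hr⟩ : ∃ r > 0, ∀ y : E, ‖y‖ < r →
      y ∈ W ∧ ‖fderiv ℝ ψ y - ContinuousLinearMap.id ℝ E‖ < κ := by
    have hc : ContinuousAt (fderiv ℝ ψ) 0 :=
      (hψ.continuousOn_fderiv_of_isOpen hW (by simp)).continuousAt (hW.mem_nhds h0)
    have hc' : ContinuousAt (fun y => ‖fderiv ℝ ψ y - ContinuousLinearMap.id ℝ E‖) 0 :=
      (hc.sub continuousAt_const).norm
    have h1 : ∀ᶠ y in 𝓝 (0 : E), ‖fderiv ℝ ψ y - ContinuousLinearMap.id ℝ E‖ < κ := by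
      apply hc'.eventually_lt continuousAt_const
      rw [hD, sub_self, norm_zero]
      exact hκ0
    have h2 : ∀ᶠ y in 𝓝 (0 : E), y ∈ W := hW.mem_nhds h0
    obtain ⟨r, hr, h⟩ := Metric.eventually_nhds_iff.mp (h2.and h1)
    refine ⟨r, hr, fun y hy => h ?_⟩
    rwa [dist_zero_right]
  refine ⟨r / (2 * R₁), by positivity, ?_⟩
  intro ε hε0 hε
  have hεR : ε * R₁ ≤ r / 2 := by
    calc ε * R₁ ≤ r / (2 * R₁) * R₁ := by gcongr
      _ = r / 2 := by field_simp
  have hsm : ∀ x : E, ‖x‖ ≤ R₁ → ‖ε • x‖ < r := by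
    intro x hx
    rw [norm_smul, Real.norm_of_nonneg hε0.le]
    calc ε * ‖x‖ ≤ ε * R₁ := by gcongr
      _ ≤ r / 2 := hεR
      _ < r := by linarith
  -- the map `h`
  set h : E → E := fun x => ε⁻¹ • ψ (ε • x) - x with hh
  have hψd : ∀ y : E, ‖y‖ < r → HasFDerivAt ψ (fderiv ℝ ψ y) y := by
    intro y hy
    have := (hψ.contDiffAt (hW.mem_nhds (hr y hy).1)).differentiableAt (by simp)
    exact this.hasFDerivAt
  have hhd : ∀ x : E, ‖x‖ ≤ R₁ →
      HasFDerivAt h (fderiv ℝ ψ (ε • x) - ContinuousLinearMap.id ℝ E) x := by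
    intro x hx
    have e1 : HasFDerivAt (fun x : E => ε • x) (ε • ContinuousLinearMap.id ℝ E) x :=
      (hasFDerivAt_id x).const_smul ε
    have e2 := (hψd (ε • x) (hsm x hx)).comp x e1
    have e3 := (e2.const_smul ε⁻¹).sub (hasFDerivAt_id x)
    have e4 : ε⁻¹ • (fderiv ℝ ψ (ε • x)).comp (ε • ContinuousLinearMap.id ℝ E) =
        fderiv ℝ ψ (ε • x) := by
      rw [ContinuousLinearMap.comp_smul, smul_smul, inv_mul_cancel₀ hε0.ne', one_smul,
        ContinuousLinearMap.comp_id]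
    rw [e4] at e3
    exact e3
  have hh0 : h 0 = 0 := by simp [hh, hψ0]
  have hhb : ∀ x : E, ‖x‖ ≤ R₁ → ‖h x‖ ≤ κ * R₁ := by
    intro x hx
    have key := (convex_closedBall (0 : E) R₁).norm_image_sub_le_of_norm_hasFDerivWithin_le
      (f := h) (f' := fun x => fderiv ℝ ψ (ε • x) - ContinuousLinearMap.id ℝ E) (C := κ)
      (fun y hy => (hhd y (by simpa using hy)).hasFDerivWithinAt)
      (fun y hy => (hr (ε • y) (hsm y (by simpa using hy))).2.le)
      (x := 0) (y := x) (by simp [hR₁.le]) (by simpa using hx)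
    rw [hh0, sub_zero, sub_zero] at key
    calc ‖h x‖ ≤ κ * ‖x‖ := key
      _ ≤ κ * R₁ := by gcongr
  have hhs : ∀ x : E, ‖x‖ ≤ R₁ → ContDiffAt ℝ ∞ h x := by
    intro x hx
    have e1 : ContDiffAt ℝ ∞ ψ (ε • x) := hψ.contDiffAt (hW.mem_nhds (hr _ (hsm x hx)).1)
    have e2 : ContDiffAt ℝ ∞ (fun x : E => ε • x) x := (contDiff_id.const_smul ε).contDiffAt
    exact ((e1.comp x e2).const_smul ε⁻¹).sub contDiffAt_id
  -- the map `f`
  set f : E → E := fun x => ρ x • h x with hf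
  have hρ0 : ∀ x : E, R₁ ≤ ‖x‖ → ρ x = 0 := by
    intro x hx
    apply ρ.zero_of_le_dist
    rw [dist_zero_right]
    exact hx
  have hρ1 : ∀ x : E, ‖x‖ ≤ R₀ → ρ x = 1 := by
    intro x hx
    apply ρ.one_of_mem_closedBall
    rw [mem_closedBall, dist_zero_right]
    exact hx
  have hfev : ∀ x : E, R₁ < ‖x‖ → f =ᶠ[𝓝 x] fun _ => 0 := by
    intro x hx
    have : ∀ᶠ y in 𝓝 x, R₁ < ‖y‖ := continuousAt_const.eventually_lt continuous_norm.continuousAt hx
    filter_upwards [this] with y hy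
    simp [hf, hρ0 y hy.le]
  have hfs : ContDiff ℝ ∞ f := by
    rw [contDiff_iff_contDiffAt]
    intro x
    rcases le_or_gt ‖x‖ R₁ with hx | hx
    · exact hρs.contDiffAt.smul (hhs x hx)
    · exact (contDiffAt_const (c := (0 : E))).congr_of_eventuallyEq (hfev x hx)
  have hfD : ∀ x : E, ‖fderiv ℝ f x‖ ≤ min δ (1 / 2) := by
    intro x
    rcases le_or_gt ‖x‖ R₁ with hx | hx
    · have e1 : HasFDerivAt (fun x => ρ x) (fderiv ℝ (fun x => ρ x) x) x :=
        ((hρs.differentiable (by simp)) x).hasFDerivAt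
      have e2 := e1.smul (hhd x hx)
      have e3 : fderiv ℝ f x = _ := e2.fderiv
      rw [e3]
      calc ‖ρ x • (fderiv ℝ ψ (ε • x) - ContinuousLinearMap.id ℝ E) +
            (fderiv ℝ (fun x => ρ x) x).smulRight (h x)‖
          ≤ ‖ρ x • (fderiv ℝ ψ (ε • x) - ContinuousLinearMap.id ℝ E)‖ +
            ‖(fderiv ℝ (fun x => ρ x) x).smulRight (h x)‖ := norm_add_le _ _
        _ ≤ 1 * κ + M * (κ * R₁) := by
            rw [norm_smul, ContinuousLinearMap.norm_smulRight_apply]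
            have hρle : ‖ρ x‖ ≤ 1 := by
              rw [Real.norm_of_nonneg ρ.nonneg]
              exact ρ.le_one
            have hκ' : ‖fderiv ℝ ψ (ε • x) - ContinuousLinearMap.id ℝ E‖ ≤ κ :=
              (hr _ (hsm x hx)).2.le
            have := hM x
            have := hhb x hx
            gcongr
        _ = (M * R₁ + 1) * κ := by ring
        _ = min δ (1 / 2) := hκ
    · rw [(hfev x hx).fderiv_eq]
      simp only [fderiv_fun_const, Pi.zero_apply, norm_zero]
      exact hmin.le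
  -- the map `P`
  have hφs : ContDiff ℝ ∞ (fun x => x + f x) := contDiff_id.add hfs
  have hφd : ∀ x : E, fderiv ℝ (fun x => x + f x) x =
      ContinuousLinearMap.id ℝ E + fderiv ℝ f x := by
    intro x
    exact ((hasFDerivAt_id x).add ((hfs.differentiable (by simp)) x).hasFDerivAt).fderiv
  have hφi : ∀ x : E, Function.Injective (fderiv ℝ (fun x => x + f x) x) := by
    intro x
    rw [injective_iff_map_eq_zero]
    intro u hu
    rw [hφd x, ContinuousLinearMap.add_apply, ContinuousLinearMap.id_apply] at hu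
    have h1 : ‖u‖ ≤ 1 / 2 * ‖u‖ := by
      calc ‖u‖ = ‖fderiv ℝ f x u‖ := by
            have h3 := eq_neg_of_add_eq_zero_left hu
            calc ‖u‖ = ‖-(fderiv ℝ f x) u‖ := congrArg norm h3
              _ = ‖fderiv ℝ f x u‖ := norm_neg _
        _ ≤ ‖fderiv ℝ f x‖ * ‖u‖ := ContinuousLinearMap.le_opNorm _ _
        _ ≤ 1 / 2 * ‖u‖ := by
            have := (hfD x).trans (min_le_right _ _)
            gcongr
    have h2 : ‖u‖ = 0 := by
      have := norm_nonneg u
      linarith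
    exact norm_eq_zero.mp h2
  have hφR : ∀ x : E, R₁ ≤ ‖x‖ → x + f x = x := by
    intro x hx
    simp [hf, hρ0 x hx]
  obtain ⟨P, hP, hPs⟩ := hIV E (fun x => x + f x) hφs hφi
    (hGI E (fun x => x + f x) R₁ hφs hφi hφR)
  refine ⟨P, hPs, ?_, ?_, ?_, ?_⟩
  · intro x hx
    rw [hP x]
    exact hφR x hx
  · intro x hx
    exact (hr _ (hsm x hx)).1
  · intro x hx
    rw [hP x]
    simp only [hf, hρ1 x hx, one_smul, hh]
    abel
  · intro x
    have e1 : (fun y => P y) = fun x => x + f x := funext hP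
    rw [e1, hφd x, add_sub_cancel_left]
    exact (hfD x).trans (min_le_left _ _)

end Pool.Agent.Helper88.SZ
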